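import Pool.Agent.H50.NC.Targets

/-!
# Row TPA of the board nck_modules (helper21)
-/

set_option autoImplicit false

namespace Pool.Agent.H21.NCK

open Pool.Agent.H48.ER Pool.Agent.H50.NC

theorem pf_TPA : T_TPA := by
  classical
  intro V G a b n P i S T hT haS hTS
  obtain ⟨t', ht'T, ht'S⟩ := Set.not_subset.1 hTS
  obtain ⟨m, hm⟩ : ∃ m, n i = m + 2 := by
    obtain ⟨c, hc⟩ := hT.pr.2 i
    have := hT.pr.1.pos i
    exact ⟨n i - 2, by omega⟩
  have hip := hT.pr.1.ip i
  rw [hm] at hip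
  obtain ⟨x', hax, hxP, hip', -⟩ := IP.tail (n := m + 1) hip
  have hxb : x' ≠ b i := hip'.ne (by omega)
  have hxT : x' ∈ T := hT.int x' hxP hax.ne' hxb
  have hcn : Cn G (insert (a i) T) := by
    intro X hXD hne hcl
    have hT1 : T ⊆ X := by
      have h1 : (X ∩ T).Nonempty := by
        obtain ⟨v, hv⟩ := hne
        rcases hXD hv with h | h
        · rw [h] at hv
          exact ⟨x', hcl _ hv _ (Set.mem_insert_of_mem _ hxT) hax, hxT⟩
        · exact ⟨v, hv, h⟩
      have h2 : X ∩ T = T := hT.cn (X ∩ T) Set.inter_subset_right h1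
        fun u hu w hw huw => ⟨hcl u hu.1 w (Set.mem_insert_of_mem _ hw) huw, hw⟩
      rw [← h2]
      exact Set.inter_subset_left
    refine Set.Subset.antisymm hXD ?_
    refine Set.insert_subset ?_ hT1
    exact hcl x' (hT1 hxT) (a i) (Set.mem_insert _ _) hax.symm
  obtain ⟨l, R, hR, hRD⟩ := c_CON V G (insert (a i) T) (a i) t' hcn (Set.mem_insert _ _)
    (Set.mem_insert_of_mem _ ht'T)
  obtain ⟨p, j, g, R1, R2, h1, -, hgS, -, hun, -, -, hfirst⟩ := c_FST V G l (a i) t' R Sᶜ hR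
    ⟨t', hR.right_mem, ht'S⟩
  have hR1 : ∀ v ∈ R1, v = a i ∨ v ∈ T := by
    intro v hv
    have : v ∈ R := by
      rw [← hun]
      exact Or.inl hv
    exact hRD this
  refine ⟨g, p, R1, ?_, hgS, h1, ?_, ?_, hR1⟩
  · rcases hR1 g h1.right_mem with h | h
    · exact absurd (h ▸ haS) hgS
    · exact h
  · by_contra hp
    have hp0 : p = 0 := by omega
    rw [hp0] at h1
    have := h1.eq_of_zero.1
    exact hgS (this ▸ haS)
  · intro v hv
    by_cases h : v ∈ S
    · exact Or.inr h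
    · exact Or.inl (hfirst v hv h)

end Pool.Agent.H21.NCK
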